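import Pool.Agent.TH817.Z3.Stm
import Pool.Agent.H337R2.Crude2

/-!
# Project Z3 (second design), part C3: crude p-adic bound of the linear form (all primes)

Job 2309 (helper986 for helper817); port of `Pool/Agent/W392/Z3/C3.lean`.
-/

open Polynomial Pool.Agent.H337R2

namespace Pool.Agent.TH986.Z3

open Pool.Agent.TH817.Z3

noncomputable section

set_option linter.unusedSectionVars false

section C3aux

variable {p : ℕ} [hp : Fact p.Prime]

lemma C3_fac_pos (N : ℕ) : 0 < padicNorm p ((N.factorial : ℕ) : ℚ) :=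
  lt_of_le_of_ne (padicNorm.nonneg _)
    (Ne.symm (padicNorm.nonzero (by exact_mod_cast Nat.factorial_ne_zero _)))

lemma C3_fac_mono {a b : ℕ} (h : a ≤ b) :
    padicNorm p ((b.factorial : ℕ) : ℚ) ≤ padicNorm p ((a.factorial : ℕ) : ℚ) := by
  obtain ⟨c, hc⟩ := Nat.factorial_dvd_factorial h
  rw [hc, Nat.cast_mul, padicNorm.mul]
  exact mul_le_of_le_one_right (padicNorm.nonneg _) (padicNorm.of_nat _)

/-- the factor of the site `m` -/
def C3f (p k m : ℕ) : ℚ := if m = k then 1 else (padicNorm p ((m : ℚ) - k))⁻¹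

lemma C3f_nonneg (k m : ℕ) : 0 ≤ C3f p k m := by
  unfold C3f
  split_ifs
  · exact zero_le_one
  · exact inv_nonneg.2 (padicNorm.nonneg _)

/-- a block of poles against a factorial -/
lemma C3_brick {n a T b k : ℕ} (hab : a < T) (hb : T - a - 1 ≤ b) (hT : T ≤ 14 * n + 1)
    (hk : k ≤ 14 * n + 1) :
    padicNorm p (((b.factorial : ℕ)) : ℚ) * ∏ m ∈ Finset.Icc (a + 1) T, C3f p k m ≤
      ((14 * n + 1 : ℕ) : ℚ) ^ 2 := by
  obtain ⟨N, hN⟩ : ∃ N, N = T - a - 1 := ⟨_, rfl⟩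
  have h1 := brick_bound (p := p) (a + 1) N k ((14 * n + 1 : ℕ) : ℚ)
    (by exact_mod_cast (by omega : 1 ≤ 14 * n + 1)) (by exact_mod_cast (by omega : N + 1 ≤ 14 * n + 1))
    (by exact_mod_cast (by omega : a + 1 + N ≤ 14 * n + 1)) (by exact_mod_cast (by omega : k ≤ 14 * n + 1))
  rw [show a + 1 + N = T by omega] at h1
  have h2 : padicNorm p ((b.factorial : ℕ) : ℚ) ≤ padicNorm p ((N.factorial : ℕ) : ℚ) :=
    C3_fac_mono (by omega)
  refine le_trans (mul_le_mul_of_nonneg_right h2 (Finset.prod_nonneg fun m _ => C3f_nonneg k m)) h1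

lemma C3_prod {n k : ℕ} (hk : k ∈ sF n) :
    ∏ m ∈ (sF n).erase k, (padicNorm p ((m : ℚ) - k))⁻¹ ^ mF n m =
      (∏ m ∈ Finset.Icc (7 * n / 2 + 1) (8 * n), C3f p k m) *
      (∏ m ∈ Finset.Icc (4 * n + 1) (17 * n / 2), C3f p k m) := by
  have h1 : ∏ m ∈ (sF n).erase k, (padicNorm p ((m : ℚ) - k))⁻¹ ^ mF n m =
      ∏ m ∈ sF n, C3f p k m ^ mF n m := by
    rw [← Finset.mul_prod_erase _ _ hk]
    rw [show C3f p k k = 1 by simp [C3f], one_pow, one_mul]
    apply Finset.prod_congr rfl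
    intro m hm
    rw [C3f, if_neg (Finset.ne_of_mem_erase hm)]
  have h2 : ∀ m, C3f p k m ^ mF n m =
      (if m ≤ 8 * n then C3f p k m else 1) * (if 4 * n < m then C3f p k m else 1) := by
    intro m
    unfold mF
    rw [pow_add]
    congr 1
    · split_ifs <;> simp
    · split_ifs <;> simp
  rw [h1, Finset.prod_congr rfl (fun m _ => h2 m), Finset.prod_mul_distrib, ← Finset.prod_filter,
    ← Finset.prod_filter]
  congr 1
  · apply Finset.prod_congr _ fun _ _ => rfl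
    ext m
    simp only [Finset.mem_filter, Finset.mem_Icc]
    omega
  · apply Finset.prod_congr _ fun _ _ => rfl
    ext m
    simp only [Finset.mem_filter, Finset.mem_Icc]
    omega

/-- a block of zeros below `k` -/
lemma C3_zeros {a T b k : ℕ} (haT : a ≤ T) (hk : T < k) (hb : b ≤ T - a) :
    ∏ m ∈ Finset.Icc (a + 1) T, padicNorm p ((k : ℚ) - m) ≤ padicNorm p ((b.factorial : ℕ) : ℚ) := by
  have h1 : ∏ m ∈ Finset.Icc (a + 1) T, padicNorm p ((k : ℚ) - m) =
      ∏ m ∈ Finset.Icc 1 (T - a), padicNorm p (((k - a : ℕ) : ℚ) - m) := by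
    refine Finset.prod_bij' (fun m _ => m - a) (fun m _ => m + a) ?_ ?_ ?_ ?_ ?_
    · intro m hm
      rw [Finset.mem_Icc] at hm ⊢
      omega
    · intro m hm
      rw [Finset.mem_Icc] at hm ⊢
      omega
    · intro m hm
      rw [Finset.mem_Icc] at hm
      omega
    · intro m hm
      rw [Finset.mem_Icc] at hm
      omega
    · intro m hm
      rw [Finset.mem_Icc] at hm
      rw [Nat.cast_sub (by omega : a ≤ k), Nat.cast_sub (by omega : a ≤ m)]
      congr 1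
      ring
  rw [h1]
  exact (num_bound (p := p) (k - a) (T - a) (by omega)).trans (C3_fac_mono hb)

lemma C3_zero_PB {n k m : ℕ} (hk : k ≤ 14 * n + 1) (hm : m < k) (M : ℚ) (hM1 : 1 ≤ M)
    (hM : ((14 * n + 1 : ℕ) : ℚ) ≤ M) :
    PB p M (padicNorm p ((k : ℚ) - m)) (TS (-(k : ℚ)) (X + C (m : ℚ))) := by
  have hM0 : 0 ≤ M := by linarith
  rw [TS_lin]
  apply PB.linX hM0 (padicNorm.nonneg _)
  · apply le_of_eq
    rw [← padicNorm.neg]
    congr 1; ring
  · have h3 := norm_inv_le (p := p) (a := (k : ℤ) - m) (by omega) (M := M) (by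
      push_cast
      have h5 : (m : ℚ) ≤ k := by exact_mod_cast hm.le
      have h6 : (k : ℚ) ≤ ((14 * n + 1 : ℕ) : ℚ) := by exact_mod_cast hk
      have h7 : (0 : ℚ) ≤ m := by positivity
      have h8 : (0 : ℚ) ≤ k := by positivity
      rw [abs_le]
      constructor <;> linarith)
    push_cast at h3
    have h4 : 0 < padicNorm p ((k : ℚ) - m) := by
      refine lt_of_le_of_ne (padicNorm.nonneg _) (Ne.symm (padicNorm.nonzero ?_))
      intro h
      have : (m : ℚ) = k := by linarith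
      have h9 : m = k := by exact_mod_cast this
      omega
    rw [inv_le_iff_one_le_mul₀ h4] at h3
    linarith

lemma C3_prod_PB {n k a T b : ℕ} (haT : a ≤ T) (hTk : T < k) (hk : k ≤ 14 * n + 1) (hb : b ≤ T - a)
    (M : ℚ) (hM1 : 1 ≤ M) (hM : ((14 * n + 1 : ℕ) : ℚ) ≤ M) :
    PB p M (padicNorm p ((b.factorial : ℕ) : ℚ))
      (∏ m ∈ Finset.Icc (a + 1) T, TS (-(k : ℚ)) (X + C (m : ℚ))) := by
  have hM0 : 0 ≤ M := by linarith
  have h3 : PB p M (∏ m ∈ Finset.Icc (a + 1) T, padicNorm p ((k : ℚ) - m))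
      (∏ m ∈ Finset.Icc (a + 1) T, TS (-(k : ℚ)) (X + C (m : ℚ))) := by
    apply PB.prod _ _ _ hM0 (fun m _ => padicNorm.nonneg _)
    intro m hm
    rw [Finset.mem_Icc] at hm
    exact C3_zero_PB (n := n) hk (by omega) M hM1 hM
  exact PB.mono hM0 h3 (C3_zeros haT hTk hb)

lemma C3_PF_PB {n k : ℕ} (hk : k ∈ sF n) (M : ℚ) (hM1 : 1 ≤ M) (hM : ((14 * n + 1 : ℕ) : ℚ) ≤ M) :
    PB p M (padicNorm p (((9 * n / 2).factorial : ℕ) : ℚ) *
      padicNorm p (((9 * n / 2).factorial : ℕ) : ℚ)) (TS (-(k : ℚ)) (PF n)) := by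
  have hM0 : 0 ≤ M := by linarith
  have hk' := hk
  rw [sF, Finset.mem_Icc] at hk'
  unfold PF
  rw [map_mul, map_mul, map_prod, map_prod, TS_C]
  have h1 : PB p M (padicNorm p (cF n)) (PowerSeries.C (cF n)) := PB.C hM0 (padicNorm.nonneg _) le_rfl
  have h3 := C3_prod_PB (p := p) (n := n) (k := k) (a := n / 2) (T := 3 * n) (b := 5 * n / 2)
    (by omega) (by omega) (by omega) (by omega) M hM1 hM
  have h4 := C3_prod_PB (p := p) (n := n) (k := k) (a := n) (T := 7 * n / 2) (b := 5 * n / 2)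
    (by omega) (by omega) (by omega) (by omega) M hM1 hM
  have n5 : 0 ≤ padicNorm p (((5 * n / 2).factorial : ℕ) : ℚ) := padicNorm.nonneg _
  refine PB.mono hM0 (PB.mul hM0 (padicNorm.nonneg _) (mul_nonneg n5 n5) h1
    (PB.mul hM0 n5 n5 h3 h4)) (le_of_eq ?_)
  rw [cF, padicNorm.div, Nat.cast_pow, Nat.cast_pow, sq, sq, padicNorm.mul, padicNorm.mul]
  have := (C3_fac_pos (p := p) (5 * n / 2)).ne'
  field_simp

lemma C3_pa {n : ℕ} (hn : 1 ≤ n) (E : ℚ[X]) (A : ℚ) (hA : 0 ≤ A) {k : ℕ} (hk : k ∈ sF n)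
    (hE : PB p ((14 * n + 1 : ℕ) : ℚ) A (TS (-(k : ℚ)) E)) (i : ℕ) :
    padicNorm p (pa (sF n) (mF n) (PF n * E) k i) ≤ ((14 * n + 1 : ℕ) : ℚ) ^ 10 * A := by
  set M : ℚ := ((14 * n + 1 : ℕ) : ℚ) with hM
  have hM1 : 1 ≤ M := by rw [hM]; exact_mod_cast (by omega : 1 ≤ 14 * n + 1)
  have hM0 : (0 : ℚ) ≤ M := by linarith
  have hk' := hk
  rw [sF, Finset.mem_Icc] at hk'
  unfold pa
  split_ifs with hi
  · set F9 := padicNorm p (((9 * n / 2).factorial : ℕ) : ℚ) with hF9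
    have h9 : 0 ≤ F9 := padicNorm.nonneg _
    have hB0 : 0 ≤ F9 * F9 := mul_nonneg h9 h9
    have hPB : PB p M (F9 * F9 * A) (TS (-(k : ℚ)) (PF n * E)) := by
      rw [map_mul]
      exact PB.mul hM0 hB0 hA (C3_PF_PB hk M hM1 hM.symm.le) hE
    have h1 := pfc_bound (p := p) (sF n) (mF n) (PF n * E) k M _
      (fun m => (padicNorm p ((m : ℚ) - k))⁻¹) hM0 (mul_nonneg hB0 hA) hPB
      (by
        intro m hm _
        have hmk := Finset.ne_of_mem_erase hm
        have hm2 := Finset.mem_of_mem_erase hm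
        rw [sF, Finset.mem_Icc] at hm2
        refine ⟨le_rfl, ?_⟩
        have h3 := norm_inv_le (p := p) (a := (m : ℤ) - k) (by omega) (M := M) (by
          push_cast
          have h5 : (m : ℚ) ≤ M := by rw [hM]; exact_mod_cast (by omega : m ≤ 14 * n + 1)
          have h6 : (k : ℚ) ≤ M := by rw [hM]; exact_mod_cast (by omega : k ≤ 14 * n + 1)
          have h7 : (0 : ℚ) ≤ m := by positivity
          have h8 : (0 : ℚ) ≤ k := by positivity
          rw [abs_le]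
          constructor <;> linarith)
        push_cast at h3
        exact h3)
      (fun m _ => inv_nonneg.2 (padicNorm.nonneg _)) (mF n k - i)
    refine h1.trans ?_
    rw [C3_prod hk]
    have b1 := C3_brick (p := p) (n := n) (a := 7 * n / 2) (T := 8 * n) (b := 9 * n / 2) (k := k)
      (by omega) (by omega) (by omega) (by omega)
    have b2 := C3_brick (p := p) (n := n) (a := 4 * n) (T := 17 * n / 2) (b := 9 * n / 2) (k := k)
      (by omega) (by omega) (by omega) (by omega)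
    rw [← hM] at b1 b2
    set G1 := ∏ m ∈ Finset.Icc (7 * n / 2 + 1) (8 * n), C3f p k m with hG1
    set G2 := ∏ m ∈ Finset.Icc (4 * n + 1) (17 * n / 2), C3f p k m with hG2
    have g1 : 0 ≤ G1 := Finset.prod_nonneg fun m _ => C3f_nonneg k m
    have g2 : 0 ≤ G2 := Finset.prod_nonneg fun m _ => C3f_nonneg k m
    have hml : mF n k - i ≤ 2 := by
      have : mF n k ≤ 2 := by
        unfold mF
        split_ifs <;> omega
      omega
    have h8 : M ^ (mF n k - i) ≤ M ^ 2 := pow_le_pow_right₀ hM1 hml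
    calc F9 * F9 * A * (G1 * G2) * M ^ (mF n k - i)
        = (F9 * G1) * (F9 * G2) * A * M ^ (mF n k - i) := by ring
      _ ≤ M ^ 2 * M ^ 2 * A * M ^ 2 := by
          have q1 : 0 ≤ F9 * G1 := mul_nonneg h9 g1
          have q2 : 0 ≤ F9 * G2 := mul_nonneg h9 g2
          gcongr
      _ = M ^ 6 * A := by ring
      _ ≤ M ^ 10 * A := mul_le_mul_of_nonneg_right (pow_le_pow_right₀ hM1 (by norm_num)) hA
  · rw [padicNorm.zero]; positivity

lemma C3_rho {n : ℕ} (hn : 1 ≤ n) (E : ℚ[X]) (A : ℚ) (hA : 0 ≤ A)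
    (hE : ∀ k ∈ sF n, PB p ((14 * n + 1 : ℕ) : ℚ) A (TS (-(k : ℚ)) E)) :
    padicNorm p (rho n (PF n * E)) ≤ ((14 * n + 1 : ℕ) : ℚ) ^ 10 * A := by
  unfold rho
  apply padicNorm.sum_le' _ (by positivity)
  intro k hk
  exact C3_pa hn E A hA hk (hE k hk) 2

lemma C3_term (c : ℕ) (x y M A : ℚ) (hM1 : 1 ≤ M) (hA : 0 ≤ A)
    (hx : padicNorm p x ≤ M ^ 10 * A) (hy : padicNorm p y ≤ M ^ 4) :
    padicNorm p ((c : ℚ) * x * y) ≤ M ^ 40 * A := by
  rw [padicNorm.mul, padicNorm.mul]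
  have hM0 : (0 : ℚ) ≤ M := by linarith
  calc padicNorm p (c : ℚ) * padicNorm p x * padicNorm p y
      ≤ 1 * (M ^ 10 * A) * M ^ 4 := by
        have h0 : padicNorm p (c : ℚ) ≤ 1 := padicNorm.of_nat c
        have h1 : 0 ≤ padicNorm p x := padicNorm.nonneg _
        have h2 : 0 ≤ padicNorm p y := padicNorm.nonneg _
        have h3 : 0 ≤ padicNorm p (c : ℚ) := padicNorm.nonneg _
        gcongr
    _ = M ^ 14 * A := by ring
    _ ≤ M ^ 40 * A := mul_le_mul_of_nonneg_right (pow_le_pow_right₀ hM1 (by norm_num)) hA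

lemma C3_scale (x y W : ℚ) (hx : padicNorm p x ≤ 1) (hy : padicNorm p y ≤ W) :
    padicNorm p (x * y) ≤ W := by
  rw [padicNorm.mul]
  exact (mul_le_of_le_one_left (padicNorm.nonneg _) hx).trans hy

end C3aux

theorem C3 : Pool.Agent.TH817.Z3.StC3 := by
  intro n p _ hn q x hx E A hA hE
  obtain ⟨hq, z, hz⟩ := hx
  have hpa := fun k hk i => C3_pa (p := p) hn E A hA (k := k) hk (hE k hk) i
  have hrho := C3_rho (p := p) hn E A hA hE
  have hM1 : 1 ≤ ((14 * n + 1 : ℕ) : ℚ) := by exact_mod_cast (by omega : 1 ≤ 14 * n + 1)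
  have hhs : ∀ m : ℕ, m ≤ 14 * n + 1 → (m : ℚ) ≤ ((14 * n + 1 : ℕ) : ℚ) := fun m hm => by
    exact_mod_cast hm
  clear hE
  generalize ((14 * n + 1 : ℕ) : ℚ) = M at *
  have hM0 : (0 : ℚ) ≤ M := by linarith
  have hW : 0 ≤ M ^ 40 * A := mul_nonneg (pow_nonneg hM0 _) hA
  have h20 : M ^ 10 * A ≤ M ^ 40 * A :=
    mul_le_mul_of_nonneg_right (pow_le_pow_right₀ hM1 (by norm_num)) hA
  have hxi : padicNorm p ((q : ℚ) * x) ≤ 1 := by
    rw [hz]; exact padicNorm.of_int z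
  have hhs4 : ∀ i ≤ 4, ∀ k ∈ sF n, padicNorm p (hs i (k - 3 * n - 1)) ≤ M ^ 4 := by
    intro i hi k hk
    have hk' := hk
    rw [sF, Finset.mem_Icc] at hk'
    have := hs_norm_crude (p := p) i (k - 3 * n - 1) M (hhs _ (by omega)) hM1
    exact this.trans (pow_le_pow_right₀ hM1 hi)
  have h3b : padicNorm p (h3 n (PF n * E)) ≤ M ^ 40 * A := by
    unfold h3
    apply padicNorm.sum_le' _ hW
    intro k hk
    refine padicNorm.nonarchimedean.trans (max_le ?_ ?_)
    · exact_mod_cast C3_term (p := p) 2 _ _ M A hM1 hA (hpa k hk 2) (hhs4 3 (by norm_num) k hk)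
    · have h1 := C3_term (p := p) 1 _ _ M A hM1 hA (hpa k hk 1) (hhs4 2 (by norm_num) k hk)
      rw [Nat.cast_one, one_mul] at h1
      exact h1
  have e : (q : ℚ) * xf n x (PF n * E) =
      ((2 : ℕ) : ℚ) * (((q : ℚ) * x) * rho n (PF n * E)) - (q : ℚ) * h3 n (PF n * E) := by
    unfold xf
    push_cast
    ring
  rw [e]
  refine padicNorm.sub.trans (max_le ?_ ?_)
  · exact C3_scale _ _ _ (padicNorm.of_nat 2) (C3_scale _ _ _ hxi (hrho.trans h20))
  · exact C3_scale _ _ _ (padicNorm.of_nat q) h3b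

end

end Pool.Agent.TH986.Z3
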