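import Pool.Agent.TH817.Z3.StmH
import Pool.Agent.Cov.PNT

/-! # Subtask Z3-Z1 (job 2319, helper986): primes `≡ 137 (mod 340)` in `(L, (1+ε) L]`; port of W494/Z3/Z1 -/

namespace Pool.Agent.TH986.Z3

open Pool.Agent.TH817.Z3 Finset Filter Topology
open Pool.Agent.Cov.PNT (pnt_residueClass)
open ArithmeticFunction

theorem psi_theta_tendsto' :
    Tendsto (fun x : ℝ => (Chebyshev.psi x - Chebyshev.theta x) / x) atTop (𝓝 0) := by
  obtain ⟨C, hC⟩ := Chebyshev.psi_sub_theta_le_mul_sqrt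
  have h2 : Tendsto (fun x : ℝ => C * (Real.sqrt x)⁻¹) atTop (𝓝 0) := by
    have := (tendsto_inv_atTop_zero.comp Real.tendsto_sqrt_atTop).const_mul C
    simpa [Function.comp_def] using this
  refine squeeze_zero' ?_ ?_ h2
  · filter_upwards [eventually_gt_atTop 0] with x hx
    exact div_nonneg (sub_nonneg.mpr (Chebyshev.theta_le_psi x)) hx.le
  · filter_upwards [eventually_gt_atTop 0] with x hx
    rw [div_le_iff₀ hx]
    refine (hC x).trans (le_of_eq ?_)
    have hs : 0 < Real.sqrt x := Real.sqrt_pos.mpr hx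
    have hx2 : Real.sqrt x * Real.sqrt x = x := Real.mul_self_sqrt hx.le
    field_simp
    rw [sq, hx2]

/-- The partial sums of the residue class. -/
noncomputable def AS (x : ℝ) : ℝ :=
  ∑ k ∈ Finset.Icc 1 ⌊x⌋₊, vonMangoldt.residueClass (137 : ZMod 340) k

theorem AS_tendsto : Tendsto (fun x : ℝ => AS x / x) atTop (𝓝 ((128 : ℝ)⁻¹)) := by
  have hu : IsUnit (137 : ZMod 340) := by
    refine IsUnit.of_mul_eq_one (273 : ZMod 340) ?_
    decide
  have h := pnt_residueClass (q := 340) (a := 137) hu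
  have ht : Nat.totient 340 = 128 := by decide +kernel
  rw [ht] at h
  exact_mod_cast h

/-- If there are no primes of the class in `(L, x]` then the difference of the sums is small. -/
theorem AS_sub {L x : ℝ} (hL : 0 ≤ L) (hLx : L ≤ x)
    (h : ∀ p : ℕ, p.Prime → p % 340 = 137 → L < p → x < p) :
    AS x - AS L ≤ Chebyshev.psi x - Chebyshev.theta x := by
  have hfl : ⌊L⌋₊ ≤ ⌊x⌋₊ := Nat.floor_le_floor hLx
  have e1 : AS x - AS L = ∑ k ∈ Finset.Ioc ⌊L⌋₊ ⌊x⌋₊, vonMangoldt.residueClass (137 : ZMod 340) k := by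
    unfold AS
    have h1 : Finset.Icc 1 ⌊x⌋₊ = Finset.Icc 1 ⌊L⌋₊ ∪ Finset.Ioc ⌊L⌋₊ ⌊x⌋₊ := by
      ext k
      simp only [mem_union, mem_Icc, mem_Ioc]
      omega
    have h2 : Disjoint (Finset.Icc 1 ⌊L⌋₊) (Finset.Ioc ⌊L⌋₊ ⌊x⌋₊) := by
      rw [Finset.disjoint_left]
      intro k hk hk'
      simp only [mem_Icc, mem_Ioc] at hk hk'
      omega
    rw [h1, sum_union h2]
    ring
  rw [e1, Chebyshev.psi_sub_theta_eq_sum_not_prime]
  have h3 : ∑ k ∈ Finset.Ioc ⌊L⌋₊ ⌊x⌋₊, vonMangoldt.residueClass (137 : ZMod 340) k ≤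
      ∑ k ∈ Finset.Ioc ⌊L⌋₊ ⌊x⌋₊ with ¬ k.Prime, vonMangoldt k := by
    rw [Finset.sum_filter]
    refine sum_le_sum fun k hk => ?_
    rw [mem_Ioc] at hk
    by_cases hp : k.Prime
    · rw [if_neg (not_not.2 hp)]
      rw [vonMangoldt.residueClass, Set.indicator_of_notMem]
      intro hmem
      have hmem' : ((k : ℕ) : ZMod 340) = 137 := hmem
      have hk2 : k % 340 = 137 := by
        have := ZMod.natCast_eq_natCast_iff' k 137 340
        rw [Nat.cast_ofNat] at this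
        have h5 := this.1 hmem'
        simpa using h5
      have h6 : L < k := (Nat.floor_lt hL).1 hk.1
      have h7 := h k hp hk2 h6
      have h8 : (k : ℝ) ≤ x := (Nat.le_floor_iff (hL.trans hLx)).1 hk.2
      linarith
    · rw [if_pos hp]
      exact vonMangoldt.residueClass_le _ k
  refine h3.trans ?_
  refine sum_le_sum_of_subset_of_nonneg ?_ fun k _ _ => vonMangoldt_nonneg
  intro k hk
  simp only [mem_filter, mem_Ioc] at hk ⊢
  exact ⟨⟨by omega, hk.1.2⟩, hk.2⟩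

theorem Z1 : StZ1 := by
  intro ε hε
  have h1 := AS_tendsto
  have hlin : Tendsto (fun L : ℝ => (1 + ε) * L) atTop atTop :=
    tendsto_id.const_mul_atTop (by linarith)
  have h2 : Tendsto (fun L : ℝ => AS ((1 + ε) * L) / ((1 + ε) * L)) atTop (𝓝 ((128 : ℝ)⁻¹)) :=
    h1.comp hlin
  have h3 : Tendsto (fun L : ℝ => (Chebyshev.psi ((1 + ε) * L) - Chebyshev.theta ((1 + ε) * L)) /
      ((1 + ε) * L)) atTop (𝓝 0) := psi_theta_tendsto'.comp hlin
  have h4 : Tendsto (fun L : ℝ => (1 + ε) * (AS ((1 + ε) * L) / ((1 + ε) * L)) - AS L / L -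
      (1 + ε) * ((Chebyshev.psi ((1 + ε) * L) - Chebyshev.theta ((1 + ε) * L)) /
      ((1 + ε) * L))) atTop (𝓝 ((1 + ε) * (128 : ℝ)⁻¹ - (128 : ℝ)⁻¹ - (1 + ε) * 0)) :=
    ((h2.const_mul (1 + ε)).sub h1).sub (h3.const_mul (1 + ε))
  have hpos : 0 < (1 + ε) * (128 : ℝ)⁻¹ - (128 : ℝ)⁻¹ - (1 + ε) * 0 := by
    have : (1 + ε) * (128 : ℝ)⁻¹ - (128 : ℝ)⁻¹ - (1 + ε) * 0 = ε / 128 := by ring
    rw [this]
    positivity
  have h5 := h4.eventually (eventually_gt_nhds hpos)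
  obtain ⟨L0, hL0⟩ := (h5.and (eventually_gt_atTop 0)).exists_forall_of_atTop
  refine ⟨L0, fun L hL => ?_⟩
  obtain ⟨h6, h7⟩ := hL0 L hL
  by_contra hcon
  push Not at hcon
  have h8 := AS_sub h7.le (by nlinarith : L ≤ (1 + ε) * L) hcon
  have hne : (1 + ε) ≠ 0 := by positivity
  have h9 : (1 + ε) * (AS ((1 + ε) * L) / ((1 + ε) * L)) - AS L / L -
      (1 + ε) * ((Chebyshev.psi ((1 + ε) * L) - Chebyshev.theta ((1 + ε) * L)) /
      ((1 + ε) * L)) = (AS ((1 + ε) * L) - AS L -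
      (Chebyshev.psi ((1 + ε) * L) - Chebyshev.theta ((1 + ε) * L))) / L := by
    field_simp
  rw [h9] at h6
  have h10 := (div_pos_iff_of_pos_right h7).1 h6
  linarith

end Pool.Agent.TH986.Z3
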